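import Mathlib
import Pool.Agent.H305R2.Rough
import Pool.Agent.Helper601.BT
import Pool.Agent.W66.RE

set_option autoImplicit false

/-!
# Integers with a prime rough part in a short interval
-/

namespace Pool.Agent.V60.XB

open Finset Filter Topology
open Pool.Agent.H305R2 (roughPart roughPart_prime SM SM_pos SMz mem_SMz VV ZZ VV_nonneg ZZ_nonneg
  sum_le_VV tail_le card_le ZZ_le_exp VV_tendsto)

/-- a smooth number has a divisor in `[D, q D]` -/
lemma exists_div {q s D : ℕ} (hq : 1 ≤ q) (hs : s ∈ SM q) (hD : 1 ≤ D) (hDs : D ≤ s) :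
    ∃ d, d ∈ SM q ∧ d ∣ s ∧ D ≤ d ∧ d ≤ q * D := by
  classical
  have hex : ∃ d, d ∣ s ∧ D ≤ d := ⟨s, dvd_rfl, hDs⟩
  set d := Nat.find hex with hd
  have hd1 := Nat.find_spec hex
  have hdm : d ∈ SM q := Nat.mem_smoothNumbers_of_dvd hs hd1.1
  refine ⟨d, hdm, hd1.1, hd1.2, ?_⟩
  rcases Nat.eq_zero_or_pos d with h0 | hpos
  · rw [h0]; exact Nat.zero_le _
  by_cases h1 : d = 1
  · rw [h1]; exact Nat.mul_pos hq hD
  obtain ⟨r, hr, hrd⟩ := Nat.exists_prime_and_dvd h1
  obtain ⟨e, he⟩ := hrd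
  have he0 : 0 < e := by
    rcases Nat.eq_zero_or_pos e with h2 | h2
    · rw [h2, mul_zero] at he; omega
    · exact h2
  have hed : e < d := by
    rw [he]
    have := hr.two_le
    nlinarith
  have heD : ¬ (e ∣ s ∧ D ≤ e) := Nat.find_min hex hed
  have hes : e ∣ s := (Dvd.intro_left r he.symm).trans hd1.1
  have heD' : e < D := by
    by_contra hc
    exact heD ⟨hes, not_lt.1 hc⟩
  have hrq : r ≤ q := by
    have h3 : r ∈ d.primeFactorsList := by
      rw [Nat.mem_primeFactorsList hpos.ne']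
      exact ⟨hr, Dvd.intro _ he.symm⟩
    have := hdm.2 r h3
    omega
  calc d = r * e := he
    _ ≤ q * D := Nat.mul_le_mul hrq heD'.le

/-- the multiples of `d` in an interval of length `H` -/
lemma mul_mem {d a H k : ℕ} (hd : 1 ≤ d) (h1 : a ≤ d * k) (h2 : d * k ≤ a + H) :
    (a + d - 1) / d ≤ k ∧ k < (a + d - 1) / d + (H / d + 1) := by
  have hd0 : 0 < d := hd
  have h3 : (a + d - 1) / d ≤ k := by
    rw [← Nat.lt_add_one_iff, Nat.div_lt_iff_lt_mul hd0, add_mul, one_mul, mul_comm k d]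
    omega
  refine ⟨h3, ?_⟩
  set k0 := (a + d - 1) / d with hk0
  have h4 : a ≤ d * k0 := by
    have h5 := Nat.lt_div_mul_add (a := a + d - 1) hd0
    rw [← hk0, mul_comm] at h5
    omega
  have h6 : d * (k - k0) ≤ H := by
    rw [Nat.mul_sub]
    omega
  have h7 : k - k0 ≤ H / d := (Nat.le_div_iff_mul_le hd0).2 (by rw [mul_comm]; exact h6)
  omega

lemma card_mul {d a H : ℕ} (hd : 1 ≤ d) :
    ((Icc a (a + H)).filter (fun m => d ∣ m)).card ≤ H / d + 1 := by
  classical
  have hsub : (Icc a (a + H)).filter (fun m => d ∣ m) ⊆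
      ((Ico ((a + d - 1) / d) ((a + d - 1) / d + (H / d + 1)))).image (fun k => d * k) := by
    intro m hm
    rw [mem_filter, mem_Icc] at hm
    obtain ⟨⟨h1, h2⟩, k, rfl⟩ := hm
    rw [mem_image]
    exact ⟨k, mem_Ico.2 (mul_mem hd h1 h2), rfl⟩
  refine (Finset.card_le_card hsub).trans (Finset.card_image_le.trans ?_)
  rw [Nat.card_Ico, Nat.add_sub_cancel_left]

/-- a bound for the number of integers of an interval with a given smooth part and a prime rough part -/
lemma card_one {C0 : ℝ} (hC0 : 1 ≤ C0) (hBT : ∀ (a q N : ℕ), 2 ≤ N → (q = 1 ∨ q.Prime) →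
    (((Finset.range N).filter (fun k => (a + k * q).Prime)).card : ℝ) ≤ C0 * N / Real.log N)
    {x : ℝ} (hx : 0 < x) {a H s : ℕ} (hs : 1 ≤ s) (hH : Real.exp (2 * x) ≤ H)
    (hsH : (s : ℝ) ≤ (H : ℝ) ^ (1 / 2 : ℝ)) :
    (((Icc a (a + H)).filter (fun m => s ∣ m ∧ (m / s).Prime)).card : ℝ) ≤
      2 * C0 / x * H * (s : ℝ)⁻¹ := by
  classical
  have hH1 : 1 < (H : ℝ) := lt_of_lt_of_le (Real.one_lt_exp_iff.2 (by linarith)) hH
  have hH0 : (0 : ℝ) < H := by linarith
  have hs0 : (0 : ℝ) < s := by exact_mod_cast hs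
  set k0 := (a + s - 1) / s with hk0
  set N := H / s + 1 with hN
  have hsq : (H : ℝ) ^ (1 / 2 : ℝ) * (H : ℝ) ^ (1 / 2 : ℝ) = H := by
    rw [← Real.rpow_add hH0]; norm_num
  have hr0 : 0 < (H : ℝ) ^ (1 / 2 : ℝ) := Real.rpow_pos_of_pos hH0 _
  have hdiv : (H : ℝ) ^ (1 / 2 : ℝ) ≤ H / s := by
    rw [le_div_iff₀ hs0]
    nlinarith
  have hr1 : 1 < (H : ℝ) ^ (1 / 2 : ℝ) := Real.one_lt_rpow hH1 (by norm_num)
  have hsH' : s ≤ H := by
    have : (s : ℝ) ≤ H := by nlinarith
    exact_mod_cast this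
  have hN2 : 2 ≤ N := by
    have : 1 ≤ H / s := (Nat.one_le_div_iff hs).2 hsH'
    omega
  have hNlo : (H : ℝ) / s < N := by
    rw [hN, div_lt_iff₀ hs0]
    have := Nat.lt_div_mul_add (a := H) (b := s) hs
    have h2 : ((H : ℕ) : ℝ) < ((H / s * s + s : ℕ) : ℝ) := by exact_mod_cast this
    push_cast at h2 ⊢
    linarith
  have hNhi : (N : ℝ) ≤ 2 * (H / s) := by
    rw [hN]
    push_cast
    have h1 : ((H / s : ℕ) : ℝ) ≤ H / s := Nat.cast_div_le
    linarith
  have hlog : x ≤ Real.log N := by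
    have h1 : Real.log ((H : ℝ) ^ (1 / 2 : ℝ)) ≤ Real.log N := Real.log_le_log hr0 (by linarith)
    rw [Real.log_rpow hH0] at h1
    have h2 : 2 * x ≤ Real.log H := (Real.le_log_iff_exp_le hH0).2 hH
    linarith
  have hsub : (Icc a (a + H)).filter (fun m => s ∣ m ∧ (m / s).Prime) ⊆
      ((range N).filter (fun k => (k0 + k * 1).Prime)).image (fun k => s * (k0 + k)) := by
    intro m hm
    rw [mem_filter, mem_Icc] at hm
    obtain ⟨⟨h1, h2⟩, ⟨k, rfl⟩, hp⟩ := hm
    rw [Nat.mul_div_cancel_left k (by omega)] at hp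
    obtain ⟨h3, h4⟩ := mul_mem hs h1 h2
    rw [← hk0] at h3 h4
    rw [mem_image]
    refine ⟨k - k0, ?_, by rw [Nat.add_sub_cancel' h3]⟩
    rw [mem_filter, mem_range, mul_one, Nat.add_sub_cancel' h3]
    exact ⟨by omega, hp⟩
  have h1 : (((Icc a (a + H)).filter (fun m => s ∣ m ∧ (m / s).Prime)).card : ℝ) ≤
      (((range N).filter (fun k => (k0 + k * 1).Prime)).card : ℝ) := by
    exact_mod_cast (Finset.card_le_card hsub).trans Finset.card_image_le
  calc _ ≤ _ := h1
    _ ≤ C0 * N / Real.log N := hBT k0 1 N hN2 (Or.inl rfl)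
    _ ≤ C0 * (2 * (H / s)) / x := by
        refine div_le_div₀ (by positivity) ?_ hx hlog
        exact mul_le_mul_of_nonneg_left hNhi (by linarith)
    _ = _ := by field_simp

/-- **Integers with a prime rough part in a short interval.** -/
theorem short_rough {c : ℝ} (hc : 0 < c) : ∃ K : ℝ, 0 < K ∧ ∀ᶠ q : ℕ in atTop, ∀ a H : ℕ,
    Real.exp (c * q) ≤ H →
    (((Icc a (a + H)).filter (fun m => (roughPart q m).Prime)).card : ℝ) ≤
      K * (H * (Real.log q / q)) := by
  classical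
  obtain ⟨C0, hC0, hBT⟩ := Pool.Agent.Helper601.brun_titchmarsh
  set C3 := Real.exp Real.eulerMascheroniConstant + 1 with hC3
  have hC30 : 0 < C3 := by positivity
  have hVV : ∀ᶠ q : ℕ in atTop, VV q / Real.log q < C3 :=
    VV_tendsto.eventually_lt_const (by rw [hC3]; linarith)
  have hZZ := ZZ_le_exp (c := c / 16) (by positivity)
  have hsm := Pool.Agent.W66.exp_small (c := c / 16) (by positivity)
  have hlin : ∀ᶠ q : ℕ in atTop, (q : ℝ) * Real.exp (-(c / 4 * q)) < 1 / 2 := by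
    have h3 := (Real.tendsto_pow_mul_exp_neg_atTop_nhds_zero 1).comp
      ((tendsto_natCast_atTop_atTop (R := ℝ)).const_mul_atTop (show 0 < c / 4 by positivity))
    filter_upwards [h3.eventually_lt_const (show 0 < c / 8 by positivity)] with q hq
    simp only [Function.comp, pow_one] at hq
    have h4 : (c / 4) * ((q : ℝ) * Real.exp (-(c / 4 * q))) < (c / 4) * (1 / 2) := by
      calc _ = c / 4 * q * Real.exp (-(c / 4 * q)) := by ring
        _ < _ := hq
        _ = _ := by ring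
    exact lt_of_mul_lt_mul_left h4 (by positivity)
  refine ⟨4 * C0 / c * C3 + 2, by positivity, ?_⟩
  have hlogq : ∀ᶠ q : ℕ in atTop, 1 ≤ Real.log q :=
    (Real.tendsto_log_atTop.comp tendsto_natCast_atTop_atTop).eventually_ge_atTop 1
  filter_upwards [hVV, hZZ, hsm, hlin, hlogq, eventually_ge_atTop 1,
    (tendsto_natCast_atTop_atTop (R := ℝ)).eventually_ge_atTop (16 / c)] with
    q hVq hZq hsq hlq hLq hq1 hqc a H hH
  have hq0 : (0 : ℝ) < q := by exact_mod_cast hq1
  have hq1' : (1 : ℝ) ≤ q := by exact_mod_cast hq1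
  have hcq : 16 ≤ c * q := by
    rw [div_le_iff₀ hc] at hqc
    linarith
  have hH1 : 17 ≤ (H : ℝ) := by
    have := Real.add_one_le_exp (c * q)
    linarith
  have hH0 : (0 : ℝ) < H := by linarith
  set S := (H : ℝ) ^ (1 / 2 : ℝ) with hS
  set R := (H : ℝ) ^ (1 / 4 : ℝ) with hR
  have hS0 : 0 < S := Real.rpow_pos_of_pos hH0 _
  have hR0 : 0 < R := Real.rpow_pos_of_pos hH0 _
  have hRR : R * R = S := by
    rw [hR, hS, ← Real.rpow_add hH0]; norm_num
  have hR2 : 2 ≤ R := by
    have h1 : ((16 : ℝ)) ^ (1 / 4 : ℝ) ≤ R := Real.rpow_le_rpow (by norm_num) (by linarith) (by norm_num)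
    have h2 : ((16 : ℝ)) ^ (1 / 4 : ℝ) = 2 := by
      rw [show (16 : ℝ) = 2 ^ (4 : ℝ) by norm_num, ← Real.rpow_mul (by norm_num)]
      norm_num
    linarith
  set D := ⌈R⌉₊ with hD
  have hD1 : R ≤ D := Nat.le_ceil R
  have hD2 : (D : ℝ) < R + 1 := Nat.ceil_lt_add_one hR0.le
  have hDpos : 1 ≤ D := by
    have : (0 : ℝ) < D := by linarith
    exact_mod_cast this
  set w := Real.log q / q with hw
  have hw0 : 0 < w := by positivity
  have hw1 : w ≤ 1 := by
    rw [hw, div_le_one hq0]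
    have := Real.add_one_le_exp (Real.log q)
    rw [Real.exp_log hq0] at this
    linarith
  have hw2 : w ^ 2 ≤ w := by nlinarith
  set T1 := (SMz q S).biUnion (fun s => ((Icc a (a + H)).filter (fun m => s ∣ m ∧ (m / s).Prime))) with hT1
  set DD := (Icc 1 (q * D)).filter (fun d => d ∈ SM q ∧ D ≤ d) with hDD
  set T2 := DD.biUnion (fun d => (Icc a (a + H)).filter (fun m => d ∣ m)) with hT2
  have hsub : (Icc a (a + H)).filter (fun m => (roughPart q m).Prime) ⊆ T1 ∪ T2 := by
    intro m hm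
    rw [mem_filter] at hm
    obtain ⟨hmI, hpr⟩ := hm
    obtain ⟨_, s, hs, he⟩ := roughPart_prime hpr
    have hs1 := SM_pos hs
    rw [mem_union]
    by_cases hsS : (s : ℝ) ≤ S
    · left
      rw [hT1, mem_biUnion]
      refine ⟨s, (mem_SMz hS0.le).2 ⟨hs, hsS⟩, ?_⟩
      rw [mem_filter]
      refine ⟨hmI, ⟨_, he⟩, ?_⟩
      have : m / s = roughPart q m := Nat.div_eq_of_eq_mul_right hs1 he
      rw [this]
      exact hpr
    · right
      rw [not_le] at hsS
      have hDs : D ≤ s := by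
        have : (D : ℝ) ≤ s := by nlinarith
        exact_mod_cast this
      obtain ⟨d, hd, hds, hd1, hd2⟩ := exists_div hq1 hs hDpos hDs
      rw [hT2, mem_biUnion]
      refine ⟨d, ?_, ?_⟩
      · rw [hDD, mem_filter, mem_Icc]
        exact ⟨⟨by omega, hd2⟩, hd, hd1⟩
      · rw [mem_filter]
        exact ⟨hmI, hds.trans ⟨_, he⟩⟩
  have hVq' : VV q ≤ C3 * Real.log q := by
    rw [div_lt_iff₀ (by linarith)] at hVq
    exact hVq.le
  have hc1 : (T1.card : ℝ) ≤ 4 * C0 / c * C3 * (H * w) := by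
    calc (T1.card : ℝ) ≤ ∑ s ∈ SMz q S,
          (((Icc a (a + H)).filter (fun m => s ∣ m ∧ (m / s).Prime)).card : ℝ) := by
          exact_mod_cast Finset.card_biUnion_le
      _ ≤ ∑ s ∈ SMz q S, 2 * C0 / (c * q / 2) * H * (s : ℝ)⁻¹ := by
          refine Finset.sum_le_sum fun s hs => ?_
          have hs' := (mem_SMz hS0.le).1 hs
          exact card_one hC0 hBT (by positivity) (SM_pos hs'.1)
            (by rw [show 2 * (c * q / 2) = c * (q : ℝ) by ring]; exact hH) hs'.2
      _ = 2 * C0 / (c * q / 2) * H * ∑ s ∈ SMz q S, (s : ℝ)⁻¹ := by rw [Finset.mul_sum]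
      _ ≤ 2 * C0 / (c * q / 2) * H * (C3 * Real.log q) := by
          refine mul_le_mul_of_nonneg_left ?_ (by positivity)
          exact (sum_le_VV q _ fun n hn => ((mem_SMz hS0.le).1 hn).1).trans hVq'
      _ = _ := by rw [hw]; field_simp; ring
  have hc2 : (T2.card : ℝ) ≤ 2 * (H * w) := by
    have h1 : (T2.card : ℝ) ≤ ∑ d ∈ DD, ((H : ℝ) * (d : ℝ)⁻¹ + 1) := by
      calc (T2.card : ℝ) ≤ ∑ d ∈ DD, (((Icc a (a + H)).filter (fun m => d ∣ m)).card : ℝ) := by
            exact_mod_cast Finset.card_biUnion_le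
        _ ≤ _ := by
            refine Finset.sum_le_sum fun d hd => ?_
            rw [hDD, mem_filter, mem_Icc] at hd
            have h2 : (((Icc a (a + H)).filter (fun m => d ∣ m)).card : ℝ) ≤ ((H / d + 1 : ℕ) : ℝ) := by
              exact_mod_cast card_mul hd.1.1
            refine h2.trans ?_
            push_cast
            have h3 : ((H / d : ℕ) : ℝ) ≤ H / d := Nat.cast_div_le
            rw [div_eq_mul_inv] at h3
            linarith
    have h2 : ∑ d ∈ DD, ((H : ℝ) * (d : ℝ)⁻¹ + 1) = H * (∑ d ∈ DD, (d : ℝ)⁻¹) + DD.card := by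
      rw [Finset.sum_add_distrib, ← Finset.mul_sum, Finset.sum_const, nsmul_eq_mul, mul_one]
    have h3 : ∑ d ∈ DD, (d : ℝ)⁻¹ ≤ w := by
      have h4 := tail_le q hR0 DD (fun n hn => by
        rw [hDD, mem_filter] at hn
        exact ⟨hn.2.1, hD1.trans (by exact_mod_cast hn.2.2)⟩)
      have h5 : R ^ (-(1 / 2) : ℝ) ≤ Real.exp (-(c / 8 * q)) := by
        have h6 : Real.exp (c / 4 * q) ≤ R := by
          have h7 := Real.rpow_le_rpow (Real.exp_pos _).le hH (show (0 : ℝ) ≤ 1 / 4 by norm_num)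
          rw [← Real.exp_mul] at h7
          refine le_trans (le_of_eq ?_) h7
          congr 1; ring
        have h8 := Real.rpow_le_rpow_of_nonpos (Real.exp_pos _) h6 (show (-(1 / 2) : ℝ) ≤ 0 by norm_num)
        rw [← Real.exp_mul] at h8
        refine h8.trans (le_of_eq ?_)
        congr 1; ring
      calc _ ≤ _ := h4
        _ ≤ Real.exp (-(c / 8 * q)) * Real.exp (c / 16 * q) :=
            mul_le_mul h5 hZq (ZZ_nonneg q) (Real.exp_pos _).le
        _ = Real.exp (-(c / 16 * q)) := by rw [← Real.exp_add]; congr 1; ring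
        _ ≤ w ^ 2 := hsq
        _ ≤ w := hw2
    have h4 : (DD.card : ℝ) ≤ H * w := by
      have h5 : DD.card ≤ q * D := by
        calc DD.card ≤ (Icc 1 (q * D)).card := Finset.card_filter_le _ _
          _ = q * D := by rw [Nat.card_Icc]; omega
      have h6 : (DD.card : ℝ) ≤ q * D := by exact_mod_cast h5
      have h7 : (q : ℝ) * D ≤ q * (2 * R) := mul_le_mul_of_nonneg_left (by linarith) hq0.le
      -- `R ^ 4 = H`
      have h8 : R * R * (R * R) = H := by
        rw [hRR, hS, ← Real.rpow_add hH0]; norm_num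
      have h9 : Real.exp (c / 4 * q) ≤ R := by
        have h7 := Real.rpow_le_rpow (Real.exp_pos _).le hH (show (0 : ℝ) ≤ 1 / 4 by norm_num)
        rw [← Real.exp_mul] at h7
        refine le_trans (le_of_eq ?_) h7
        congr 1; ring
      have h10 : (q : ℝ) * 2 ≤ R := by
        have h11 : (q : ℝ) * 2 ≤ Real.exp (c / 4 * q) := by
          have e1 : Real.exp (-(c / 4 * q)) * Real.exp (c / 4 * q) = 1 := by
            rw [← Real.exp_add]; simp
          have e2 := Real.exp_pos (c / 4 * (q : ℝ))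
          have e3 := mul_lt_mul_of_pos_right hlq e2
          rw [mul_assoc, e1] at e3
          linarith
        linarith
      have h11 : 1 ≤ R * w * R := by
        have e1 : (q : ℝ) * w = Real.log q := by rw [hw]; field_simp
        have e2 : 1 ≤ R * w := by
          calc (1 : ℝ) ≤ Real.log q := hLq
            _ = q * w := e1.symm
            _ ≤ R * w := mul_le_mul_of_nonneg_right (by linarith) hw0.le
        nlinarith
      calc (DD.card : ℝ) ≤ q * D := h6
        _ ≤ q * (2 * R) := h7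
        _ = (q * 2) * R := by ring
        _ ≤ R * R := mul_le_mul_of_nonneg_right h10 hR0.le
        _ ≤ R * R * (R * w * R) := le_mul_of_one_le_right (by positivity) h11
        _ = (R * R * (R * R)) * w := by ring
        _ = H * w := by rw [h8]
    rw [h2] at h1
    have h5 := mul_le_mul_of_nonneg_left h3 hH0.le
    linarith
  have h1 : (((Icc a (a + H)).filter (fun m => (roughPart q m).Prime)).card : ℝ) ≤ T1.card + T2.card := by
    exact_mod_cast (Finset.card_le_card hsub).trans (Finset.card_union_le _ _)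
  calc _ ≤ _ := h1
    _ ≤ 4 * C0 / c * C3 * (H * w) + 2 * (H * w) := add_le_add hc1 hc2
    _ = _ := by ring

end Pool.Agent.V60.XB
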