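import Mathlib
import Pool.Agent.V60.XB.Short
import Pool.Agent.V60.Gap.JFin

set_option autoImplicit false

/-!
# Pairs of exponents of two families with different bases
-/

namespace Pool.Agent.V60.XB

open Finset Filter Topology MeasureTheory
open Pool.Agent.W66X
open Pool.Agent.W66 (NN_bounds)
open Pool.Agent.H447R2.ML (Sh sh_of)
open Pool.Agent.H305R2 (roughPart roughPart_prime SM SM_pos ff NN measurable_ff measurable_NN ff_nonneg
  ff_le_one integral_ind integral_ind_le)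

lemma sum_biUnion_le' {ι : Type*} [DecidableEq ι] (s : Finset ι) (t : ι → Finset ℕ) (f : ℕ → ℝ)
    (hf : ∀ m, 0 ≤ f m) : ∑ m ∈ s.biUnion t, f m ≤ ∑ i ∈ s, ∑ m ∈ t i, f m := by
  induction s using Finset.induction_on with
  | empty => simp
  | insert a s ha ih =>
    rw [Finset.biUnion_insert, Finset.sum_insert ha]
    have h1 := Finset.sum_union_inter (s₁ := t a) (s₂ := s.biUnion t) (f := f)
    have h2 : 0 ≤ ∑ m ∈ t a ∩ s.biUnion t, f m := Finset.sum_nonneg fun m _ => hf m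
    linarith

/-- **Pairs of exponents of two families with different bases.** -/
theorem pair_int {α1 α2 κ1 κ2 C1 C2 ρ c : ℝ} (hα1 : 1 < α1) (hα2 : 1 < α2) (hκ1 : 0 ≤ κ1)
    (hκ1' : κ1 < α1) (hκ2 : 0 ≤ κ2) (hκ2' : κ2 < α2) {g1 g2 : ℕ → ℝ}
    (hg1 : ∀ p, |g1 p| ≤ C1 * κ1 ^ p) (hg2 : ∀ p, |g2 p| ≤ C2 * κ2 ^ p) (hρ : 0 < ρ) (hc : 0 < c)
    (b0 : ℝ) : ∃ K : ℝ, 0 < K ∧ ∃ P : ℕ, ∀ p ≥ P, ∀ q ≥ P,
    Real.exp (c * q) * α1 ^ p ≤ ρ * α2 ^ q →
    ∫ t in Set.Ioc b0 (b0 + 1), ff p (ysh α1 g1 p t) * ff q (ysh α2 g2 q (t + Real.log ρ)) ≤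
      K * ((Real.log p / p) * (Real.log q / q)) := by
  classical
  have hα10 : 0 < α1 := by linarith
  have hα20 : 0 < α2 := by linarith
  set L := Real.log α1 with hL
  have hLpos : 0 < L := Real.log_pos hα1
  set r := Real.log ρ with hr
  obtain ⟨K1, hK1, hA⟩ := sum_Ap2 (c := L / 2) (by positivity)
  obtain ⟨K0, hK0, hS⟩ := short_rough hc
  have hpert1 := pert8 hα10 hκ1 hκ1' hg1 (b0 - 1) 64
  have hpert2 := pert8 hα20 hκ2 hκ2' hg2 (b0 + r - 1) 64
  have hsh2 := sh_of hα20 hκ2 hκ2' hg2 (b0 + r) (b0 + r + 1)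
  have hlarge : ∀ᶠ p : ℕ in atTop, (|b0| + 32) * 2 / L < p :=
    tendsto_natCast_atTop_atTop.eventually_gt_atTop _
  obtain ⟨P, hP⟩ := eventually_atTop.1 (hA.and (hS.and (hlarge.and ((eventually_ge_atTop 3).and
    (hpert1.and (hpert2.and hsh2))))))
  refine ⟨2 * (64 * K0 * K1), by positivity, P, fun p hp q hq hR => ?_⟩
  obtain ⟨hAp, _, hpl, hp3, hpertp, _, _⟩ := hP p hp
  obtain ⟨_, hSq, _, hq3, _, hpertq, hshq⟩ := hP q hq
  have hp3' : (3 : ℝ) ≤ p := by exact_mod_cast hp3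
  have hq3' : (3 : ℝ) ≤ q := by exact_mod_cast hq3
  have hp0 : (0 : ℝ) < p := by linarith
  have hq0 : (0 : ℝ) < q := by linarith
  have hb0abs := neg_abs_le b0
  have hb0abs' := le_abs_self b0
  rw [div_lt_iff₀ hLpos] at hpl
  -- the basic scale
  set Y := L * p + b0 - 1 / 2 with hY
  have hYlo : L / 2 * p ≤ Y := by rw [hY]; linarith
  have hY16 : 16 ≤ Y := by rw [hY]; linarith
  set E := Real.exp Y with hE
  have hEpos : 0 < E := Real.exp_pos Y
  have hE17 : 17 ≤ E := by have := Real.add_one_le_exp Y; linarith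
  have hαp : 0 < α1 ^ p := pow_pos hα10 p
  set B := ρ * α2 ^ q / α1 ^ p with hB
  have hBα : B * α1 ^ p = ρ * α2 ^ q := by rw [hB]; field_simp
  have hBc : Real.exp (c * q) ≤ B := by
    rw [hB, le_div_iff₀ hαp]
    exact hR
  have hB1 : 1 ≤ B := le_trans (Real.one_le_exp (by positivity)) hBc
  have hB0 : 0 < B := by linarith
  set N0 := ⌊Real.exp Y⌋₊ with hN0
  set N1 := ⌊Real.exp (Y + 2)⌋₊ with hN1
  have hN0gt : E < N0 + 1 := Nat.lt_floor_add_one _
  have hN0le : (N0 : ℝ) ≤ E := Nat.floor_le hEpos.le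
  have hN1le : (N1 : ℝ) ≤ Real.exp (Y + 2) := Nat.floor_le (Real.exp_pos _).le
  obtain ⟨hee1, hee2, hhalf1, hhalf2, he3⟩ := exp_consts
  have hhalf0 : 0 < Real.exp (1 / 2) := Real.exp_pos _
  have hEe2 : Real.exp (Y + 2) = E * (Real.exp 1 * Real.exp 1) := by
    rw [hE, ← Real.exp_add, ← Real.exp_add]; ring_nf
  have hEe7 : E * 7 ≤ E * (Real.exp 1 * Real.exp 1) := mul_le_mul_of_nonneg_left hee1 hEpos.le
  have hEe8 : E * (Real.exp 1 * Real.exp 1) ≤ E * 7.5 := mul_le_mul_of_nonneg_left hee2 hEpos.le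
  have hN1r : (N1 : ℝ) ≤ 8 * E := by rw [hEe2] at hN1le; linarith
  have hbp : ∀ t : ℝ, Real.exp t * α1 ^ p = Real.exp (L * p + t) := by
    intro t
    rw [Real.exp_add, hL, mul_comm (Real.log α1), Real.exp_nat_mul, Real.exp_log hα10, mul_comm]
  have hgp : |g1 p| ≤ E / 64 := by
    push_cast at hpertp
    have h1 : Real.exp (L * p + (b0 - 1)) ≤ E := by
      rw [hE, hY]; exact Real.exp_le_exp.2 (by linarith)
    linarith
  have hgq : |g2 q| ≤ B * E / 64 := by
    push_cast at hpertq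
    have h1 : Real.exp (Real.log α2 * q + (b0 + r - 1)) = B * Real.exp (L * p + (b0 - 1)) := by
      rw [← hbp, mul_comm (Real.exp (b0 - 1)), ← mul_assoc, hBα,
        show Real.log α2 * q + (b0 + r - 1) = (q : ℝ) * Real.log α2 + r + (b0 - 1) by ring,
        Real.exp_add, Real.exp_add, Real.exp_nat_mul, Real.exp_log hα20, hr, Real.exp_log hρ]
      ring
    have h2 : Real.exp (L * p + (b0 - 1)) ≤ E := by
      rw [hE, hY]; exact Real.exp_le_exp.2 (by linarith)
    have h3 := mul_le_mul_of_nonneg_left h2 hB0.le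
    rw [h1] at hpertq
    linarith
  set k' := g2 q - B * g1 p with hk'
  have hk'b : |k'| ≤ B * E / 32 := by
    calc |k'| ≤ |g2 q| + |B * g1 p| := abs_sub _ _
      _ = |g2 q| + B * |g1 p| := by rw [abs_mul, abs_of_pos hB0]
      _ ≤ B * E / 64 + B * (E / 64) := by gcongr
      _ = _ := by ring
  set H := ⌈B⌉₊ + 2 with hH
  have hHr : (H : ℝ) ≤ 4 * B := by
    have := Nat.ceil_lt_add_one hB0.le
    rw [hH]; push_cast; linarith
  have hHB : B + 2 ≤ H := by
    have := Nat.le_ceil B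
    rw [hH]; push_cast; linarith
  set aa : ℕ → ℕ := fun N => ⌊B * N + k' - 1⌋₊ with haa
  set Sf : ℕ → Finset ℕ := fun N => (Icc (aa N) (aa N + H)).filter (fun m => (roughPart q m).Prime) with hSf
  set Ps := (Icc N0 N1).filter (fun N => (roughPart p N).Prime) with hPs
  set F := Ps.biUnion Sf with hF
  have hPsm : ∀ N ∈ Ps, E - 1 ≤ N ∧ (N : ℝ) ≤ 8 * E := by
    intro N hN
    rw [hPs, mem_filter, mem_Icc] at hN
    have h1 : (N0 : ℝ) ≤ N := by exact_mod_cast hN.1.1
    have h2 : (N : ℝ) ≤ N1 := by exact_mod_cast hN.1.2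
    constructor <;> linarith
  have hF1 : ∀ m ∈ F, 1 ≤ m := by
    intro m hm
    rw [hF, mem_biUnion] at hm
    obtain ⟨N, _, hm⟩ := hm
    simp only [hSf, mem_filter] at hm
    obtain ⟨_, s, hs, he⟩ := roughPart_prime hm.2
    have := SM_pos hs
    rw [he]
    exact Nat.mul_pos this hm.2.pos
  have hSlo : ∀ N ∈ Ps, ∀ m ∈ Sf N, B * E / 2 ≤ (m : ℝ) := by
    intro N hN m hm
    simp only [hSf, mem_filter, mem_Icc] at hm
    have h1 : B * N + k' - 1 < (aa N : ℝ) + 1 := Nat.lt_floor_add_one _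
    have h2 : ((aa N : ℕ) : ℝ) ≤ m := by exact_mod_cast hm.1.1
    have h3 := (hPsm N hN).1
    have h4 := (abs_le.1 hk'b).1
    have h5 : B * (E - 1) ≤ B * N := mul_le_mul_of_nonneg_left h3 hB0.le
    nlinarith
  -- pointwise bound
  have hpert8p : ((8 : ℕ) : ℝ) * |g1 p| ≤ Real.exp (Real.log α1 * p + (b0 - 1)) := by
    push_cast at hpertp ⊢
    have := abs_nonneg (g1 p)
    linarith
  have hpert8q : ((8 : ℕ) : ℝ) * |g2 q| ≤ Real.exp (Real.log α2 * q + (b0 + r - 1)) := by
    push_cast at hpertq ⊢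
    have := abs_nonneg (g2 q)
    linarith
  have hpt : ∀ t ∈ Set.Ioc b0 (b0 + 1), ff p (ysh α1 g1 p t) * ff q (ysh α2 g2 q (t + r)) ≤
      if NN (ysh α2 g2 q (t + r)) ∈ F then (1 : ℝ) else 0 := by
    intro t ht
    unfold ff
    by_cases h1 : (roughPart p (NN (ysh α1 g1 p t))).Prime
    · by_cases h2 : (roughPart q (NN (ysh α2 g2 q (t + r)))).Prime
      · rw [if_pos h1, if_pos h2]
        have hmem : NN (ysh α2 g2 q (t + r)) ∈ F := by
          obtain ⟨hx1, hx2, _⟩ := exp_ysh hα10 hpert8p (t := t) (by linarith [ht.1])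
          obtain ⟨hx3, hx4, _⟩ := exp_ysh hα20 hpert8q (t := t + r) (by linarith [ht.1])
          have hn1 := NN_bounds (ysh α1 g1 p t)
          have hn2 := NN_bounds (ysh α2 g2 q (t + r))
          rw [hx1] at hn1
          rw [hx3] at hn2
          have hval : Real.exp (t + r) * α2 ^ q + g2 q = B * (Real.exp t * α1 ^ p + g1 p) + k' := by
            have e1 : Real.exp (t + r) = Real.exp t * ρ := by rw [Real.exp_add, hr, Real.exp_log hρ]
            have e2 : B * (Real.exp t * α1 ^ p + g1 p) + k' = Real.exp t * (B * α1 ^ p) + g2 q := by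
              rw [hk']; ring
            rw [e2, hBα, e1]; ring
          rw [hval] at hn2
          set n := NN (ysh α1 g1 p t) with hn
          set m := NN (ysh α2 g2 q (t + r)) with hm
          have hlo : B * n + k' - 1 ≤ m := by
            have := mul_le_mul_of_nonneg_left hn1.1.le hB0.le
            linarith [hn2.2]
          have hhi : (m : ℝ) < B * n + B + k' := by
            have := mul_le_mul_of_nonneg_left hn1.2 hB0.le
            linarith [hn2.1]
          rw [hF, mem_biUnion]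
          refine ⟨n, ?_, ?_⟩
          · rw [hPs, mem_filter, mem_Icc]
            have hXlo : Real.exp (1 / 2) * E < Real.exp t * α1 ^ p := by
              rw [hbp, hE, hY, ← Real.exp_add]
              exact Real.exp_lt_exp.2 (by linarith [ht.1])
            have hXhi : Real.exp t * α1 ^ p ≤ (Real.exp 1 * Real.exp (1 / 2)) * E := by
              rw [hbp, hE, hY, ← Real.exp_add, ← Real.exp_add]
              exact Real.exp_le_exp.2 (by linarith [ht.2])
            have hgp' := abs_le.1 hgp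
            refine ⟨⟨?_, ?_⟩, h1⟩
            · have h3 : (N0 : ℝ) ≤ n := by
                have h4 : 8 / 5 * E ≤ Real.exp (1 / 2) * E := mul_le_mul_of_nonneg_right hhalf1 hEpos.le
                linarith [hn1.2]
              exact_mod_cast h3
            · rw [hN1, Nat.le_floor_iff (Real.exp_pos _).le]
              refine hn1.1.le.trans ?_
              rw [hEe2]
              have h4 : (Real.exp 1 * Real.exp (1 / 2)) * E ≤ (3 * (17 / 10)) * E := by gcongr
              linarith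
          · simp only [hSf, mem_filter, mem_Icc]
            refine ⟨⟨?_, ?_⟩, h2⟩
            · exact Nat.floor_le_of_le hlo
            · have h3 : B * n + k' - 1 < (aa n : ℝ) + 1 := Nat.lt_floor_add_one _
              have h4 : (m : ℝ) < ((aa n + H : ℕ) : ℝ) := by
                push_cast
                linarith
              exact (by exact_mod_cast h4 : m < aa n + H).le
        rw [if_pos hmem]; norm_num
      · rw [if_neg h2, mul_zero]; split_ifs <;> norm_num
    · rw [if_neg h1, zero_mul]; split_ifs <;> norm_num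
  have hmeasF : Measurable (fun u : ℝ => if NN u ∈ F then (1 : ℝ) else 0) :=
    (measurable_from_nat (f := fun n : ℕ => if n ∈ F then (1 : ℝ) else 0)).comp measurable_NN
  have hm1 : Measurable (fun t => ff p (ysh α1 g1 p t)) :=
    (measurable_ff p).comp (measurable_ysh _ _ _)
  have hm2 : Measurable (fun t => ff q (ysh α2 g2 q (t + r))) :=
    (measurable_ff q).comp ((measurable_ysh _ _ _).comp (measurable_id.add_const r))
  have hint1 : IntegrableOn (fun t : ℝ => ff p (ysh α1 g1 p t) * ff q (ysh α2 g2 q (t + r)))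
      (Set.Ioc b0 (b0 + 1)) := by
    refine Measure.integrableOn_of_bounded (M := 1) (by simp) (hm1.mul hm2).aestronglyMeasurable ?_
    refine Eventually.of_forall fun t => ?_
    have h1 := ff_nonneg p (ysh α1 g1 p t)
    have h2 := ff_nonneg q (ysh α2 g2 q (t + r))
    have h3 := ff_le_one p (ysh α1 g1 p t)
    have h4 := ff_le_one q (ysh α2 g2 q (t + r))
    rw [Real.norm_eq_abs, abs_of_nonneg (mul_nonneg h1 h2)]
    exact mul_le_one₀ h3 h2 h4
  have hint2 : IntegrableOn (fun t : ℝ => if NN (ysh α2 g2 q (t + r)) ∈ F then (1 : ℝ) else 0)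
      (Set.Ioc b0 (b0 + 1)) := by
    refine Measure.integrableOn_of_bounded (M := 1) (by simp)
      (hmeasF.comp ((measurable_ysh _ _ _).comp (measurable_id.add_const r))).aestronglyMeasurable ?_
    refine Eventually.of_forall fun t => ?_
    split_ifs <;> simp
  have hstep1 : ∫ t in Set.Ioc b0 (b0 + 1), ff p (ysh α1 g1 p t) * ff q (ysh α2 g2 q (t + r)) ≤
      2 * ∑ m ∈ F, 1 / (m : ℝ) := by
    have h1 : ∫ t in Set.Ioc b0 (b0 + 1), ff p (ysh α1 g1 p t) * ff q (ysh α2 g2 q (t + r)) ≤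
        ∫ t in Set.Ioc b0 (b0 + 1), (if NN (ysh α2 g2 q (t + r)) ∈ F then (1 : ℝ) else 0) :=
      setIntegral_mono_on hint1 hint2 measurableSet_Ioc hpt
    have htr : ∫ t in Set.Ioc b0 (b0 + 1), (if NN (ysh α2 g2 q (t + r)) ∈ F then (1 : ℝ) else 0) =
        ∫ t in Set.Ioc (b0 + r) (b0 + r + 1), (if NN (ysh α2 g2 q t) ∈ F then (1 : ℝ) else 0) := by
      rw [← intervalIntegral.integral_of_le (by linarith), ← intervalIntegral.integral_of_le (by linarith)]
      have := intervalIntegral.integral_comp_add_right (a := b0) (b := b0 + 1)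
        (fun t => if NN (ysh α2 g2 q t) ∈ F then (1 : ℝ) else 0) r
      rw [show b0 + 1 + r = b0 + r + 1 by ring] at this
      exact this
    have h2 := (Sh.cov hshq hq3 (s := b0 + r) (t := b0 + r + 1) le_rfl (by linarith) le_rfl
      (F := fun u => if NN u ∈ F then (1 : ℝ) else 0) hmeasF (fun x => by split_ifs <;> norm_num)
      (fun x => by split_ifs <;> norm_num)).1
    have h3 : ∫ u in Set.Ioc (ysh α2 g2 q (b0 + r)) (ysh α2 g2 q (b0 + r + 1)),
        (if NN u ∈ F then (1 : ℝ) else 0) ≤ ∑ m ∈ F, 1 / (m : ℝ) := by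
      calc _ = _ := integral_ind F hF1 _ _
        _ ≤ ∑ m ∈ F, 1 / (m : ℝ) := Finset.sum_le_sum fun m hm => integral_ind_le (hF1 m hm) _ _
    have h4 : 1 / (q : ℝ) ≤ 1 / 2 := one_div_le_one_div_of_le (by norm_num) (by linarith)
    have h5 : 0 ≤ ∫ t in Set.Ioc (b0 + r) (b0 + r + 1), (if NN (ysh α2 g2 q t) ∈ F then (1 : ℝ) else 0) :=
      integral_nonneg fun t => by simp only [Pi.zero_apply]; split_ifs <;> norm_num
    have h6 : (1 - 1 / (q : ℝ)) *
        ∫ t in Set.Ioc (b0 + r) (b0 + r + 1), (if NN (ysh α2 g2 q t) ∈ F then (1 : ℝ) else 0) ≤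
        ∑ m ∈ F, 1 / (m : ℝ) := le_trans h2 h3
    have h7 := mul_le_mul_of_nonneg_right (show 1 / 2 ≤ 1 - 1 / (q : ℝ) by linarith) h5
    rw [htr] at h1
    linarith
  refine hstep1.trans ?_
  rw [mul_assoc 2]
  refine mul_le_mul_of_nonneg_left ?_ (by norm_num)
  set w := Real.log q / q with hw
  have hw0 : 0 ≤ w := div_nonneg (Real.log_natCast_nonneg q) hq0.le
  have hBE : 0 < B * E := by positivity
  have hin : ∀ N ∈ Ps, ∑ m ∈ Sf N, 1 / (m : ℝ) ≤ 64 * K0 * w * (1 / (N : ℝ)) := by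
    intro N hN
    have h1 : ∀ m ∈ Sf N, 1 / (m : ℝ) ≤ 2 / (B * E) := by
      intro m hm
      have h2 := hSlo N hN m hm
      calc 1 / (m : ℝ) ≤ 1 / (B * E / 2) := one_div_le_one_div_of_le (by positivity) h2
        _ = _ := by field_simp
    have h2 : ((Sf N).card : ℝ) ≤ K0 * (4 * B * w) := by
      refine (hSq (aa N) H (by linarith)).trans ?_
      exact mul_le_mul_of_nonneg_left (mul_le_mul_of_nonneg_right hHr hw0) hK0.le
    have h3 := (hPsm N hN).2
    have h4 : (0 : ℝ) < N := by linarith [(hPsm N hN).1]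
    have h5 : 1 / E ≤ 8 / N := by
      rw [div_le_div_iff₀ hEpos h4]
      linarith
    calc ∑ m ∈ Sf N, 1 / (m : ℝ) ≤ ∑ m ∈ Sf N, 2 / (B * E) := Finset.sum_le_sum h1
      _ = (Sf N).card * (2 / (B * E)) := by rw [Finset.sum_const, nsmul_eq_mul]
      _ ≤ (K0 * (4 * B * w)) * (2 / (B * E)) := mul_le_mul_of_nonneg_right h2 (by positivity)
      _ = 8 * K0 * w * (1 / E) := by field_simp; ring
      _ ≤ 8 * K0 * w * (8 / N) := mul_le_mul_of_nonneg_left h5 (by positivity)
      _ = _ := by ring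
  calc ∑ m ∈ F, 1 / (m : ℝ) ≤ ∑ N ∈ Ps, ∑ m ∈ Sf N, 1 / (m : ℝ) :=
        sum_biUnion_le' Ps Sf (fun m => 1 / (m : ℝ)) fun m => by positivity
    _ ≤ ∑ N ∈ Ps, 64 * K0 * w * (1 / (N : ℝ)) := Finset.sum_le_sum hin
    _ = 64 * K0 * w * ∑ N ∈ Ps, 1 / (N : ℝ) := by rw [Finset.mul_sum]
    _ ≤ 64 * K0 * w * (K1 * (Real.log p / p)) :=
        mul_le_mul_of_nonneg_left (hAp Y hYlo) (by positivity)
    _ = _ := by ring

end Pool.Agent.V60.XB
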