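import Mathlib
import Pool.Agent.V60.XB.Pair

set_option autoImplicit false

/-!
# Sets of pairs of exponents of two families with different bases
-/

namespace Pool.Agent.V60.XB

open Finset Filter Topology MeasureTheory
open Pool.Agent.W66X
open Pool.Agent.V60.Gap (bc ff_one ceil_floor ae_not_int' Close CloseSet summable_close summable_sub
  two_of_close ev_log close_mono)
open Pool.Agent.H305R2 (roughPart ff NN measurable_ff measurable_NN ff_nonneg ff_le_one)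
open Pool.Agent.TH888.R (ae_windows)

/-- the weight of a pair of exponents -/
noncomputable def wt (z : ℕ × ℕ) : ℝ := (Real.log z.1 / z.1) * (Real.log z.2 / z.2)

lemma wt_nonneg (z : ℕ × ℕ) : 0 ≤ wt z :=
  mul_nonneg (div_nonneg (Real.log_natCast_nonneg _) (Nat.cast_nonneg _))
    (div_nonneg (Real.log_natCast_nonneg _) (Nat.cast_nonneg _))

lemma finite_small {A : ℕ} (D : Set (ℕ × ℕ)) (hD : ∀ z ∈ D, z.2 ≤ A * z.1 ∧ z.1 ≤ A * z.2) (P : ℕ) :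
    {z | z ∈ D ∧ (z.1 < P ∨ z.2 < P)}.Finite := by
  refine ((Set.finite_Iio (P + A * P + 1)).prod (Set.finite_Iio (P + A * P + 1))).subset ?_
  rintro z ⟨hz, hzP⟩
  obtain ⟨h1, h2⟩ := hD z hz
  rcases hzP with h | h
  · have h3 : A * z.1 ≤ A * P := Nat.mul_le_mul_left A h.le
    exact ⟨by simp only [Set.mem_Iio]; omega, by simp only [Set.mem_Iio]; omega⟩
  · have h3 : A * z.2 ≤ A * P := Nat.mul_le_mul_left A h.le
    exact ⟨by simp only [Set.mem_Iio]; omega, by simp only [Set.mem_Iio]; omega⟩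

/-- sets of pairs, one direction -/
theorem xset {α1 α2 κ1 κ2 C1 C2 ρ c : ℝ} (hα1 : 1 < α1) (hα2 : 1 < α2) (hκ1 : 0 ≤ κ1)
    (hκ1' : κ1 < α1) (hκ2 : 0 ≤ κ2) (hκ2' : κ2 < α2) {g1 g2 : ℕ → ℝ}
    (hg1 : ∀ p, |g1 p| ≤ C1 * κ1 ^ p) (hg2 : ∀ p, |g2 p| ≤ C2 * κ2 ^ p) (hρ : 0 < ρ) (hc : 0 < c)
    {A : ℕ} (D : Set (ℕ × ℕ)) (hD : ∀ z ∈ D, z.2 ≤ A * z.1 ∧ z.1 ≤ A * z.2) {P0 : ℕ}
    (hD2 : ∀ z ∈ D, P0 ≤ z.1 → Real.exp (c * z.2) * α1 ^ z.1 ≤ ρ * α2 ^ z.2)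
    (hs : Summable (fun z : D => wt z.1)) :
    ∀ᵐ t : ℝ, {z | z ∈ D ∧ (roughPart z.1 (NN (ysh α1 g1 z.1 t))).Prime ∧
      (roughPart z.2 (NN (ysh α2 g2 z.2 (t + Real.log ρ)))).Prime}.Finite := by
  refine ae_windows fun b0 => ?_
  obtain ⟨K1, hK1, P1, h1⟩ := pair_int hα1 hα2 hκ1 hκ1' hκ2 hκ2' hg1 hg2 hρ hc b0
  have hm1 : ∀ m : ℕ, Measurable (fun t => ff m (ysh α1 g1 m t)) := fun m =>
    (measurable_ff m).comp (measurable_ysh _ _ _)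
  have hm2 : ∀ m : ℕ, Measurable (fun t => ff m (ysh α2 g2 m (t + Real.log ρ))) := fun m =>
    (measurable_ff m).comp ((measurable_ysh _ _ _).comp (measurable_id.add_const _))
  have hA := bc (μ := volume.restrict (Set.Ioc b0 (b0 + 1))) {z | z ∈ D ∧ P1 + P0 ≤ z.1 ∧ P1 ≤ z.2}
    (fun z t => ff z.1 (ysh α1 g1 z.1 t) * ff z.2 (ysh α2 g2 z.2 (t + Real.log ρ)))
    (fun z => (hm1 z.1).mul (hm2 z.2))
    (fun z t => mul_nonneg (ff_nonneg _ _) (ff_nonneg _ _))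
    (fun z t => mul_le_one₀ (ff_le_one _ _) (ff_nonneg _ _) (ff_le_one _ _))
    (fun z => wt z) (K := K1) (C := ∑' z : D, wt z.1) hK1.le
    (by
      intro z hz
      exact h1 z.1 (by have := hz.2.1; omega) z.2 hz.2.2 (hD2 z hz.1 (by have := hz.2.1; omega)))
    (by
      classical
      intro T hT
      have h2 : ∑ z ∈ T, wt z = ∑ z ∈ T.attach.image (fun z => (⟨z.1, (hT z.1 z.2).1⟩ : D)), wt z.1 := by
        rw [Finset.sum_image]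
        · exact (Finset.sum_attach T (fun z => wt z)).symm
        · intro x _ y _ hxy
          have := congrArg Subtype.val hxy
          exact Subtype.ext this
      rw [h2]
      exact hs.sum_le_tsum _ fun z _ => wt_nonneg _)
  filter_upwards [hA] with t htA
  refine (htA.union (finite_small D hD (P1 + P0))).subset ?_
  rintro z ⟨hz, h3, h4⟩
  rcases lt_or_ge z.1 (P1 + P0) with h6 | h6
  · exact Or.inr ⟨hz, Or.inl h6⟩
  rcases lt_or_ge z.2 (P1 + P0) with h7 | h7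
  · exact Or.inr ⟨hz, Or.inr h7⟩
  · refine Or.inl ⟨⟨hz, h6, by omega⟩, ?_⟩
    rw [ff_one h3, ff_one h4, one_mul]

/-- sets of pairs, one direction, the integers `⌊β α1 ^ p + g1 p⌋` and `⌊ρ β α2 ^ q + g2 q⌋` -/
theorem xset_floor {α1 α2 κ1 κ2 C1 C2 ρ c : ℝ} (hα1 : 1 < α1) (hα2 : 1 < α2) (hκ1 : 0 ≤ κ1)
    (hκ1' : κ1 < α1) (hκ2 : 0 ≤ κ2) (hκ2' : κ2 < α2) {g1 g2 : ℕ → ℝ}
    (hg1 : ∀ p, |g1 p| ≤ C1 * κ1 ^ p) (hg2 : ∀ p, |g2 p| ≤ C2 * κ2 ^ p) (hρ : 0 < ρ) (hc : 0 < c)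
    {A : ℕ} (D : Set (ℕ × ℕ)) (hD : ∀ z ∈ D, z.2 ≤ A * z.1 ∧ z.1 ≤ A * z.2) {P0 : ℕ}
    (hD2 : ∀ z ∈ D, P0 ≤ z.1 → Real.exp (c * z.2) * α1 ^ z.1 ≤ ρ * α2 ^ z.2)
    (hs : Summable (fun z : D => wt z.1)) :
    ∀ᵐ β : ℝ, 0 < β → {z | z ∈ D ∧ (roughPart z.1 ⌊β * α1 ^ z.1 + g1 z.1⌋₊).Prime ∧
      (roughPart z.2 ⌊ρ * β * α2 ^ z.2 + g2 z.2⌋₊).Prime}.Finite := by
  have hα10 : (0 : ℝ) < α1 := by linarith
  have hα20 : (0 : ℝ) < α2 := by linarith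
  have key := ae_of_exp' (P := fun β : ℝ => (∀ p m : ℕ, 1 * β * α1 ^ p + g1 p ≠ m) →
      (∀ p m : ℕ, ρ * β * α2 ^ p + g2 p ≠ m) → {z | z ∈ D ∧
      (roughPart z.1 ⌊β * α1 ^ z.1 + g1 z.1⌋₊).Prime ∧
      (roughPart z.2 ⌊ρ * β * α2 ^ z.2 + g2 z.2⌋₊).Prime}.Finite) (by
    filter_upwards [xset hα1 hα2 hκ1 hκ1' hκ2 hκ2' hg1 hg2 hρ hc D hD hD2 hs] with t ht n1 n2
    obtain ⟨P, hP⟩ := eventually_atTop.1 (pert8 hα10 hκ1 hκ1' hg1 t 8)
    obtain ⟨P2, hP2⟩ := eventually_atTop.1 (pert8 hα20 hκ2 hκ2' hg2 (t + Real.log ρ) 8)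
    have e : ∀ p, P ≤ p → NN (ysh α1 g1 p t) = ⌊Real.exp t * α1 ^ p + g1 p⌋₊ := by
      intro p hp
      unfold NN
      have h := exp_ysh hα10 (hP p hp) le_rfl
      rw [h.1]
      exact ceil_floor h.2.1 fun m => by
        have := n1 p m
        rwa [one_mul] at this
    have e2 : ∀ p, P2 ≤ p → NN (ysh α2 g2 p (t + Real.log ρ)) = ⌊ρ * Real.exp t * α2 ^ p + g2 p⌋₊ := by
      intro p hp
      unfold NN
      have h := exp_ysh hα20 (hP2 p hp) le_rfl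
      have h3 : Real.exp (t + Real.log ρ) = ρ * Real.exp t := by
        rw [Real.exp_add, Real.exp_log hρ, mul_comm]
      rw [h3] at h
      rw [h.1]
      exact ceil_floor h.2.1 (n2 p)
    refine (ht.union (finite_small D hD (P + P2))).subset ?_
    rintro z ⟨hz, h3, h4⟩
    rcases lt_or_ge z.1 (P + P2) with h6 | h6
    · exact Or.inr ⟨hz, Or.inl h6⟩
    rcases lt_or_ge z.2 (P + P2) with h7 | h7
    · exact Or.inr ⟨hz, Or.inr h7⟩
    · refine Or.inl ⟨hz, ?_⟩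
      rw [e z.1 (by omega), e2 z.2 (by omega)]
      exact ⟨h3, h4⟩)
  filter_upwards [key, ae_not_int' hα10 one_pos g1, ae_not_int' hα20 hρ g2] with β h n1 n2 hβ
  exact h hβ n1 n2

lemma exp_mul_log {α : ℝ} (hα : 0 < α) (p : ℕ) : α ^ p = Real.exp (p * Real.log α) := by
  rw [Real.exp_nat_mul, Real.exp_log hα]

/-- **Sets of pairs of exponents of two families with different bases.** -/
theorem xsets {α1 α2 κ1 κ2 C1 C2 ρ c : ℝ} (hα1 : 1 < α1) (hα2 : 1 < α2) (hκ1 : 0 ≤ κ1)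
    (hκ1' : κ1 < α1) (hκ2 : 0 ≤ κ2) (hκ2' : κ2 < α2) {g1 g2 : ℕ → ℝ}
    (hg1 : ∀ p, |g1 p| ≤ C1 * κ1 ^ p) (hg2 : ∀ p, |g2 p| ≤ C2 * κ2 ^ p) (hρ : 0 < ρ) (hc : 0 < c)
    {A : ℕ} (D : Set (ℕ × ℕ)) (hD : ∀ z ∈ D, z.2 ≤ A * z.1 ∧ z.1 ≤ A * z.2)
    (hD2 : ∀ z ∈ D, c * (z.1 + z.2) ≤ |(z.1 : ℝ) * Real.log α1 - z.2 * Real.log α2|)
    (hs : Summable (fun z : D => wt z.1)) :
    ∀ᵐ β : ℝ, 0 < β → {z | z ∈ D ∧ (roughPart z.1 ⌊β * α1 ^ z.1 + g1 z.1⌋₊).Prime ∧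
      (roughPart z.2 ⌊ρ * β * α2 ^ z.2 + g2 z.2⌋₊).Prime}.Finite := by
  have hα10 : (0 : ℝ) < α1 := by linarith
  have hα20 : (0 : ℝ) < α2 := by linarith
  obtain ⟨P0, hP0⟩ := exists_nat_gt (|Real.log ρ| / c)
  have hP0' : ∀ p : ℕ, P0 ≤ p → |Real.log ρ| ≤ c * p := by
    intro p hp
    have h1 : (P0 : ℝ) ≤ p := by exact_mod_cast hp
    have h2 : |Real.log ρ| / c ≤ p := by linarith
    rw [div_le_iff₀ hc] at h2
    linarith
  -- first direction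
  let D1 : Set (ℕ × ℕ) := {z | z ∈ D ∧ (z.1 : ℝ) * Real.log α1 ≤ z.2 * Real.log α2}
  have hD1 : D1 ⊆ D := fun z hz => hz.1
  have A1 := xset_floor hα1 hα2 hκ1 hκ1' hκ2 hκ2' hg1 hg2 hρ hc D1 (fun z hz => hD z hz.1) (P0 := P0)
    (by
      intro z hz hz1
      have h1 := hD2 z hz.1
      rw [abs_of_nonpos (by linarith [hz.2])] at h1
      have h2 := hP0' z.1 hz1
      have h3 := neg_abs_le (Real.log ρ)
      rw [exp_mul_log hα10, exp_mul_log hα20, ← Real.exp_add]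
      conv_rhs => rw [← Real.exp_log hρ, ← Real.exp_add]
      rw [Real.exp_le_exp]
      nlinarith) (summable_sub hD1 wt hs)
  -- second direction
  let D2 : Set (ℕ × ℕ) := {z | z.swap ∈ D ∧ (z.1 : ℝ) * Real.log α2 ≤ z.2 * Real.log α1}
  have hs2 : Summable (fun z : D2 => wt z.1) := by
    have hinj : Function.Injective (fun z : D2 => (⟨z.1.swap, z.2.1⟩ : D)) := by
      intro x y hxy
      have h1 := congrArg (fun z : D => z.1) hxy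
      exact Subtype.ext (Prod.swap_injective h1)
    refine (hs.comp_injective hinj).congr fun z => ?_
    simp only [Function.comp, wt, Prod.fst_swap, Prod.snd_swap]
    ring
  have A2 := xset_floor hα2 hα1 hκ2 hκ2' hκ1 hκ1' hg2 hg1 (inv_pos.2 hρ) hc D2
    (fun z hz => (hD _ hz.1).symm) (P0 := P0)
    (by
      intro z hz hz1
      have h1 := hD2 _ hz.1
      simp only [Prod.fst_swap, Prod.snd_swap] at h1
      rw [abs_of_nonneg (by linarith [hz.2])] at h1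
      have h2 := hP0' z.1 hz1
      have h3 := le_abs_self (Real.log ρ)
      rw [exp_mul_log hα10, exp_mul_log hα20, ← Real.exp_add]
      conv_rhs => rw [← Real.exp_log (inv_pos.2 hρ), ← Real.exp_add, Real.log_inv]
      rw [Real.exp_le_exp]
      nlinarith) hs2
  have A3 : ∀ᵐ β : ℝ, 0 < ρ * β → {z | z ∈ D2 ∧ (roughPart z.1 ⌊(ρ * β) * α2 ^ z.1 + g2 z.1⌋₊).Prime ∧
      (roughPart z.2 ⌊ρ⁻¹ * (ρ * β) * α1 ^ z.2 + g1 z.2⌋₊).Prime}.Finite := by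
    have hq : Measure.QuasiMeasurePreserving (fun x : ℝ => ρ * x) := by
      refine ⟨measurable_const_mul ρ, ?_⟩
      have := Real.map_volume_mul_left hρ.ne'
      rw [this]
      exact Measure.smul_absolutelyContinuous
    exact hq.ae A2
  filter_upwards [A1, A3] with β h1 h2 hβ
  refine ((h1 hβ).union ((h2 (mul_pos hρ hβ)).image Prod.swap)).subset ?_
  rintro z ⟨hz, h3, h4⟩
  rcases le_total ((z.1 : ℝ) * Real.log α1) (z.2 * Real.log α2) with h5 | h5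
  · exact Or.inl ⟨⟨hz, h5⟩, h3, h4⟩
  · refine Or.inr ⟨z.swap, ⟨⟨by rw [Prod.swap_swap]; exact hz, h5⟩, h4, ?_⟩, Prod.swap_swap z⟩
    have e : ρ⁻¹ * (ρ * β) = β := by field_simp
    simp only [Prod.snd_swap]
    rw [e]
    exact h3

end Pool.Agent.V60.XB
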