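import Mathlib
import Pool.Agent.V60.XB.Sets

set_option autoImplicit false

/-!
# Exponents of two families with different bases avoid each other
-/

namespace Pool.Agent.V60.XB

open Finset Filter Topology MeasureTheory
open Pool.Agent.V60.Gap (Close CloseSet summable_close summable_sub two_of_close ev_log close_mono)
open Pool.Agent.H305R2 (roughPart)

lemma wt_le {z : ℕ × ℕ} (h : 3 ≤ z.1) (h2 : z.1 ≤ z.2) : wt z ≤ (Real.log z.1 / z.1) ^ 2 := by
  have he : Real.exp 1 ≤ 3 := by linarith [Real.exp_one_lt_d9]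
  have h3 : (3 : ℝ) ≤ z.1 := by exact_mod_cast h
  have h4 : (z.1 : ℝ) ≤ z.2 := by exact_mod_cast h2
  have h5 : Real.log z.2 / z.2 ≤ Real.log z.1 / z.1 :=
    Real.log_div_self_antitoneOn (show Real.exp 1 ≤ (z.1 : ℝ) by linarith)
      (show Real.exp 1 ≤ (z.2 : ℝ) by linarith) h4
  have h6 : 0 ≤ Real.log z.1 / z.1 := div_nonneg (Real.log_natCast_nonneg _) (Nat.cast_nonneg _)
  unfold wt
  rw [sq]
  exact mul_le_mul_of_nonneg_left h5 h6

lemma wt_swap (z : ℕ × ℕ) : wt z.swap = wt z := by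
  unfold wt
  rw [Prod.fst_swap, Prod.snd_swap, mul_comm]

/-- one direction -/
lemma close_one {α1 α2 κ1 κ2 C1 C2 ρ : ℝ} (hα1 : 1 < α1) (hα12 : α1 < α2) (hκ1 : 0 ≤ κ1)
    (hκ1' : κ1 < α1) (hκ2 : 0 ≤ κ2) (hκ2' : κ2 < α2) {g1 g2 : ℕ → ℝ}
    (hg1 : ∀ p, |g1 p| ≤ C1 * κ1 ^ p) (hg2 : ∀ p, |g2 p| ≤ C2 * κ2 ^ p) (hρ : 0 < ρ)
    {η : ℝ} (hη : 0 < η) :
    ∀ᵐ β : ℝ, 0 < β → ∃ P : ℕ, ∀ p q : ℕ, P ≤ p → P ≤ q → p.Prime → q.Prime →
      (roughPart p ⌊β * α1 ^ p + g1 p⌋₊).Prime → (roughPart q ⌊ρ * β * α2 ^ q + g2 q⌋₊).Prime →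
      ((min p q : ℕ) : ℝ) / Real.log ((min p q : ℕ) : ℝ) ^ (1 + η) ≤ |(q : ℝ) - p| := by
  have hα10 : (0 : ℝ) < α1 := by linarith
  have hα2 : 1 < α2 := by linarith
  set l1 := Real.log α1 with hl1
  set l2 := Real.log α2 with hl2
  have hl10 : 0 < l1 := Real.log_pos hα1
  have hl12 : l1 < l2 := Real.log_lt_log hα10 hα12
  set c := (l2 - l1) / 6 with hc
  have hc0 : 0 < c := by rw [hc]; linarith
  set Λ := 1 + 2 * l1 / (l2 - l1) with hΛ
  have hd0 : 0 < l2 - l1 := by linarith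
  have hΛ1 : 1 ≤ Λ := by
    have : 0 ≤ 2 * l1 / (l2 - l1) := by positivity
    linarith
  obtain ⟨P, hP⟩ := summable_close hη
  obtain ⟨P5, h5⟩ := eventually_atTop.1 (ev_log (c := Λ))
  -- the size condition
  have hsize : ∀ m : ℕ, P5 + 1 ≤ m → (m : ℝ) / Real.log m ^ (1 + η) ≤ m ∧
      l1 * (m / Real.log m ^ (1 + η)) ≤ (l2 - l1) / 2 * m := by
    intro m hm
    have h6 := h5 m (by omega)
    have hm0 : (0 : ℝ) < m := by
      have : 0 < m := by omega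
      exact_mod_cast this
    have h7 : Real.log m ≤ Real.log m ^ (1 + η) := by
      have := Real.rpow_le_rpow_of_exponent_le (show 1 ≤ Real.log m by linarith)
        (show (1 : ℝ) ≤ 1 + η by linarith)
      rwa [Real.rpow_one] at this
    have h8 : Λ ≤ Real.log m ^ (1 + η) := by linarith
    have h9 : 0 < Real.log m ^ (1 + η) := by linarith
    constructor
    · exact div_le_self hm0.le (by linarith)
    · have h10 : 2 * l1 / (l2 - l1) ≤ Real.log m ^ (1 + η) := by linarith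
      rw [div_le_iff₀ hd0] at h10
      rw [mul_div_assoc', div_le_iff₀ h9]
      nlinarith
  set Q := P + P5 + 3 with hQ
  let D1 : Set (ℕ × ℕ) := {z | Q ≤ z.1 ∧ z.1.Prime ∧ z.2.Prime ∧ z.1 ≤ z.2 ∧
    (z.2 : ℝ) - z.1 < z.1 / Real.log z.1 ^ (1 + η)}
  let D2 : Set (ℕ × ℕ) := {z | z.swap ∈ D1}
  have hD1C : D1 ⊆ CloseSet η P := fun z hz =>
    ⟨by have := hz.1; omega, hz.2.1, hz.2.2.1, hz.2.2.2.1, fun _ => hz.2.2.2.2⟩
  have hD1two : ∀ z ∈ D1, z.2 ≤ 2 * z.1 := by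
    intro z hz
    have h6 := (hsize z.1 (by have := hz.1; omega)).1
    have h7 := hz.2.2.2.2
    have h8 : (z.2 : ℝ) ≤ 2 * z.1 := by linarith
    exact_mod_cast h8
  have hs1 : Summable (fun z : D1 => wt z.1) := by
    refine Summable.of_nonneg_of_le (fun z => wt_nonneg _) (fun z => ?_)
      (summable_sub hD1C (fun z => (Real.log z.1 / z.1) ^ 2) hP)
    exact wt_le (by have := z.2.1; omega) z.2.2.2.2.1
  have hs2 : Summable (fun z : D2 => wt z.1) := by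
    have hinj : Function.Injective (fun z : D2 => (⟨z.1.swap, z.2⟩ : D1)) := by
      intro x y hxy
      have h1 := congrArg (fun z : D1 => z.1) hxy
      exact Subtype.ext (Prod.swap_injective h1)
    refine (hs1.comp_injective hinj).congr fun z => ?_
    simp only [Function.comp]
    exact wt_swap _
  have B1 := xsets hα1 hα2 hκ1 hκ1' hκ2 hκ2' hg1 hg2 hρ hc0 (A := 2) D1
    (fun z hz => ⟨hD1two z hz, by have := hz.2.2.2.1; omega⟩)
    (by
      intro z hz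
      have h6 := hsize z.1 (by have := hz.1; omega)
      have h7 := hz.2.2.2.2
      have h8 : (z.1 : ℝ) ≤ z.2 := by exact_mod_cast hz.2.2.2.1
      have h9 : (0 : ℝ) ≤ z.1 := Nat.cast_nonneg _
      rw [abs_sub_comm]
      refine le_trans ?_ (le_abs_self _)
      have e1 : (z.2 : ℝ) * l2 - z.1 * l1 = z.2 * (l2 - l1) + (z.2 - z.1) * l1 := by ring
      have e2 : (z.1 : ℝ) * (l2 - l1) ≤ z.2 * (l2 - l1) := mul_le_mul_of_nonneg_right h8 hd0.le
      have e3 : 0 ≤ ((z.2 : ℝ) - z.1) * l1 := mul_nonneg (by linarith) hl10.le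
      have e4 : c * (z.1 + z.2) ≤ c * (3 * z.1) := mul_le_mul_of_nonneg_left (by linarith) hc0.le
      rw [e1]
      have e5 : c * (3 * z.1) = (l2 - l1) / 2 * z.1 := by rw [hc]; ring
      nlinarith) hs1
  have B2 := xsets hα1 hα2 hκ1 hκ1' hκ2 hκ2' hg1 hg2 hρ hc0 (A := 2) D2
    (fun z hz => ⟨by have : z.swap.1 ≤ z.swap.2 := hz.2.2.2.1
                     simp only [Prod.fst_swap, Prod.snd_swap] at this
                     omega, hD1two _ hz⟩)
    (by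
      intro z hz
      have h6 := hsize z.2 (by have : Q ≤ z.swap.1 := hz.1
                               simp only [Prod.fst_swap] at this
                               omega)
      have h7 : (z.1 : ℝ) - z.2 < z.2 / Real.log z.2 ^ (1 + η) := hz.2.2.2.2
      have h8 : (z.2 : ℝ) ≤ z.1 := by
        have : z.swap.1 ≤ z.swap.2 := hz.2.2.2.1
        exact_mod_cast this
      have h9 : (0 : ℝ) ≤ z.2 := Nat.cast_nonneg _
      rw [abs_sub_comm]
      refine le_trans ?_ (le_abs_self _)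
      have e1 : (z.2 : ℝ) * l2 - z.1 * l1 = z.2 * (l2 - l1) - l1 * (z.1 - z.2) := by ring
      have e3 : l1 * ((z.1 : ℝ) - z.2) ≤ l1 * (z.2 / Real.log z.2 ^ (1 + η)) :=
        mul_le_mul_of_nonneg_left h7.le hl10.le
      have e4 : c * (z.1 + z.2) ≤ c * (3 * z.2) := mul_le_mul_of_nonneg_left (by linarith [h6.1]) hc0.le
      rw [e1]
      have e5 : c * (3 * z.2) = (l2 - l1) / 2 * z.2 := by rw [hc]; ring
      linarith [h6.2]) hs2
  filter_upwards [B1, B2] with β h1 h2 hβ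
  obtain ⟨Q1, hQ1⟩ := ((h1 hβ).image Prod.fst).bddAbove
  obtain ⟨Q2, hQ2⟩ := ((h2 hβ).image Prod.fst).bddAbove
  refine ⟨Q + Q1 + Q2 + 1, fun p q hp hq hpp hqp h3 h4 => ?_⟩
  by_contra hcon
  rw [not_le] at hcon
  rcases le_total p q with h6 | h6
  · rw [min_eq_left h6] at hcon
    have h7 : (p, q) ∈ D1 := ⟨by simp only; omega, hpp, hqp, h6, lt_of_le_of_lt (le_abs_self _) hcon⟩
    have := hQ1 (show p ∈ _ from ⟨(p, q), ⟨h7, h3, h4⟩, rfl⟩)
    omega
  · rw [min_eq_right h6] at hcon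
    have h7 : (p, q) ∈ D2 := by
      refine ⟨by simp only [Prod.fst_swap]; omega, hqp, hpp, h6, ?_⟩
      simp only [Prod.fst_swap, Prod.snd_swap]
      refine lt_of_le_of_lt ?_ hcon
      rw [abs_sub_comm]
      exact le_abs_self _
    have := hQ2 (show p ∈ _ from ⟨(p, q), ⟨h7, h3, h4⟩, rfl⟩)
    omega

/-- **Exponents of two families with different bases avoid each other.** -/
theorem xclose {α1 α2 κ1 κ2 C1 C2 ρ : ℝ} (hα1 : 1 < α1) (hα12 : α1 < α2) (hκ1 : 0 ≤ κ1)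
    (hκ1' : κ1 < α1) (hκ2 : 0 ≤ κ2) (hκ2' : κ2 < α2) {g1 g2 : ℕ → ℝ}
    (hg1 : ∀ p, |g1 p| ≤ C1 * κ1 ^ p) (hg2 : ∀ p, |g2 p| ≤ C2 * κ2 ^ p) (hρ : 0 < ρ) :
    ∀ᵐ β : ℝ, 0 < β → ∀ ε : ℝ, 0 < ε → ∃ P : ℕ, ∀ p q : ℕ, P ≤ p → P ≤ q → p.Prime → q.Prime →
      (roughPart p ⌊β * α1 ^ p + g1 p⌋₊).Prime → (roughPart q ⌊ρ * β * α2 ^ q + g2 q⌋₊).Prime →
      ((min p q : ℕ) : ℝ) / Real.log ((min p q : ℕ) : ℝ) ^ (1 + ε) ≤ |(q : ℝ) - p| := by
  have h1 := fun n : ℕ => close_one (C1 := C1) (C2 := C2) hα1 hα12 hκ1 hκ1' hκ2 hκ2' hg1 hg2 hρ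
    (η := 1 / ((n : ℝ) + 1)) (by positivity)
  filter_upwards [ae_all_iff.2 h1] with β h hβ ε hε
  obtain ⟨n, hn⟩ := exists_nat_one_div_lt hε
  obtain ⟨P, hP⟩ := h n hβ
  obtain ⟨P5, h5⟩ := eventually_atTop.1 (ev_log (c := 1))
  refine ⟨P + P5, fun p q hp hq hpp hqp h3 h4 => ?_⟩
  refine le_trans ?_ (hP p q (by omega) (by omega) hpp hqp h3 h4)
  have h6 := h5 (min p q) (by omega)
  exact div_le_div_of_nonneg_left (Nat.cast_nonneg _) (Real.rpow_pos_of_pos (by linarith) _)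
    (Real.rpow_le_rpow_of_exponent_le h6 (by linarith))

end Pool.Agent.V60.XB
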