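import Mathlib
import Pool.Agent.V60.XB.Close

set_option autoImplicit false

/-!
# Two families with different bases and amplitudes proportional to one amplitude
-/

namespace Pool.Agent.V60.XB

open Filter Topology MeasureTheory
open Pool.Agent.H305R2 (roughPart)

lemma qmp {s : ℝ} (hs : 0 < s) : Measure.QuasiMeasurePreserving (fun x : ℝ => s * x) := by
  refine ⟨measurable_const_mul s, ?_⟩
  have := Real.map_volume_mul_left hs.ne'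
  rw [this]
  exact Measure.smul_absolutelyContinuous

/-- avoidance, amplitudes `s1 β` and `s2 β` -/
theorem xclose' {α1 α2 κ1 κ2 C1 C2 s1 s2 : ℝ} (hα1 : 1 < α1) (hα12 : α1 < α2) (hκ1 : 0 ≤ κ1)
    (hκ1' : κ1 < α1) (hκ2 : 0 ≤ κ2) (hκ2' : κ2 < α2) {g1 g2 : ℕ → ℝ}
    (hg1 : ∀ p, |g1 p| ≤ C1 * κ1 ^ p) (hg2 : ∀ p, |g2 p| ≤ C2 * κ2 ^ p) (hs1 : 0 < s1)
    (hs2 : 0 < s2) :
    ∀ᵐ β : ℝ, 0 < β → ∀ ε : ℝ, 0 < ε → ∃ P : ℕ, ∀ p q : ℕ, P ≤ p → P ≤ q → p.Prime → q.Prime →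
      (roughPart p ⌊s1 * β * α1 ^ p + g1 p⌋₊).Prime → (roughPart q ⌊s2 * β * α2 ^ q + g2 q⌋₊).Prime →
      ((min p q : ℕ) : ℝ) / Real.log ((min p q : ℕ) : ℝ) ^ (1 + ε) ≤ |(q : ℝ) - p| := by
  have h1 := (qmp hs1).ae (xclose (C1 := C1) (C2 := C2) hα1 hα12 hκ1 hκ1' hκ2 hκ2' hg1 hg2
    (div_pos hs2 hs1))
  filter_upwards [h1] with β h hβ
  have e : s2 / s1 * (s1 * β) = s2 * β := by field_simp
  have h2 := h (mul_pos hs1 hβ)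
  rw [e] at h2
  exact h2

/-- sets of pairs, amplitudes `s1 β` and `s2 β` -/
theorem xsets' {α1 α2 κ1 κ2 C1 C2 s1 s2 c : ℝ} (hα1 : 1 < α1) (hα2 : 1 < α2) (hκ1 : 0 ≤ κ1)
    (hκ1' : κ1 < α1) (hκ2 : 0 ≤ κ2) (hκ2' : κ2 < α2) {g1 g2 : ℕ → ℝ}
    (hg1 : ∀ p, |g1 p| ≤ C1 * κ1 ^ p) (hg2 : ∀ p, |g2 p| ≤ C2 * κ2 ^ p) (hs1 : 0 < s1)
    (hs2 : 0 < s2) (hc : 0 < c)
    {A : ℕ} (D : Set (ℕ × ℕ)) (hD : ∀ z ∈ D, z.2 ≤ A * z.1 ∧ z.1 ≤ A * z.2)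
    (hD2 : ∀ z ∈ D, c * (z.1 + z.2) ≤ |(z.1 : ℝ) * Real.log α1 - z.2 * Real.log α2|)
    (hs : Summable (fun z : D => (Real.log z.1.1 / z.1.1) * (Real.log z.1.2 / z.1.2))) :
    ∀ᵐ β : ℝ, 0 < β → {z | z ∈ D ∧ (roughPart z.1 ⌊s1 * β * α1 ^ z.1 + g1 z.1⌋₊).Prime ∧
      (roughPart z.2 ⌊s2 * β * α2 ^ z.2 + g2 z.2⌋₊).Prime}.Finite := by
  have h1 := (qmp hs1).ae (xsets (C1 := C1) (C2 := C2) hα1 hα2 hκ1 hκ1' hκ2 hκ2' hg1 hg2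
    (div_pos hs2 hs1) hc D hD hD2 hs)
  filter_upwards [h1] with β h hβ
  have e : s2 / s1 * (s1 * β) = s2 * β := by field_simp
  have h2 := h (mul_pos hs1 hβ)
  rw [e] at h2
  exact h2

/-- no common large exponent follows from avoidance -/
lemma no_common {p : ℕ} {ε : ℝ} (hp : 3 ≤ p)
    (h : ((min p p : ℕ) : ℝ) / Real.log ((min p p : ℕ) : ℝ) ^ (1 + ε) ≤ |(p : ℝ) - p|) : False := by
  rw [min_self, sub_self, abs_zero] at h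
  have h1 : (3 : ℝ) ≤ p := by exact_mod_cast hp
  have h2 : 0 < Real.log p := Real.log_pos (by linarith)
  have h3 : 0 < (p : ℝ) / Real.log p ^ (1 + ε) := by
    have := Real.rpow_pos_of_pos h2 (1 + ε)
    positivity
  linarith

end Pool.Agent.V60.XB
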